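import Pool.Agent.CRT.Stmts

namespace Pool.Agent.CRT.H10

open Set Filter Topology MeasureTheory Pool.Agent.CRT

theorem cont {S : TransSurf} {u : Pl} {a b : ℝ} {c : ℝ → S.X} (h : S.Moves u a b c) :
    ContinuousOn c (Icc a b) := by
  intro s hs
  obtain ⟨φ, -, hφs, hev⟩ := h s hs
  have h1 : Tendsto (fun r : ℝ => φ (c s) + (r - s) • u) (𝓝[Icc a b] s) (𝓝 (φ (c s))) := by
    have : Continuous fun r : ℝ => φ (c s) + (r - s) • u := by fun_prop
    have h2 := (this.tendsto s).mono_left (nhdsWithin_le_nhds (s := Icc a b))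
    simpa using h2
  have h2 : Tendsto φ.symm (𝓝 (φ (c s))) (𝓝 (c s)) := by
    have := (φ.continuousAt_symm (φ.map_source hφs)).tendsto
    rwa [φ.left_inv hφs] at this
  refine (h2.comp h1).congr' ?_
  filter_upwards [hev] with r hr
  simp only [Function.comp_apply]
  rw [← hr.2, φ.left_inv hr.1]

theorem uni : UniStmt := by
  intro S u a b c c' hc hc' s₀ hs₀ h0 s hs
  have hcc := cont hc
  have hcc' := cont hc'
  have k1 : Continuous fun r : Icc a b => c r := by
    have := continuousOn_iff_continuous_restrict.1 hcc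
    exact this
  have k2 : Continuous fun r : Icc a b => c' r := by
    have := continuousOn_iff_continuous_restrict.1 hcc'
    exact this
  haveI : PreconnectedSpace (Icc a b) := Subtype.preconnectedSpace isPreconnected_Icc
  let A : Set (Icc a b) := {r | c r = c' r}
  have hclosed : IsClosed A := isClosed_eq k1 k2
  have hopen : IsOpen A := by
    rw [isOpen_iff_mem_nhds]
    intro r hr
    have hr' : c r = c' r := hr
    obtain ⟨φ, hφ, hφs, hev⟩ := hc r r.2
    obtain ⟨ψ, hψ, hψs, hev'⟩ := hc' r r.2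
    obtain ⟨v, hv⟩ := S.trans φ hφ ψ hψ (c r) hφs (by rw [hr']; exact hψs)
    have e1 : ∀ᶠ y in 𝓝[Icc a b] (r : ℝ), ψ (c' y) = φ (c' y) + v := by
      have h3 := hcc' r r.2
      have h4 : Tendsto c' (𝓝[Icc a b] (r : ℝ)) (𝓝 (c r)) := by rw [hr']; exact h3
      exact h4.eventually hv
    have e2 : ∀ᶠ y in 𝓝[Icc a b] (r : ℝ), c' y ∈ φ.source := by
      have h3 := hcc' r r.2
      have h4 : Tendsto c' (𝓝[Icc a b] (r : ℝ)) (𝓝 (c r)) := by rw [hr']; exact h3
      exact h4.eventually (φ.open_source.mem_nhds hφs)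
    have e3 : ψ (c' r) = φ (c r) + v := by
      have := hv.self_of_nhds
      rwa [hr'] at this ⊢
    have e4 : ∀ᶠ y in 𝓝[Icc a b] (r : ℝ), c y = c' y := by
      filter_upwards [hev, hev', e1, e2] with y h5 h6 h7 h8
      refine φ.injOn h5.1 h8 ?_
      have h9 : φ (c' y) + v = φ (c r) + v + (y - r) • u := by
        rw [← h7, h6.2, e3]
      rw [h5.2]
      have h10 : φ (c' y) = φ (c r) + (y - r) • u := by
        have : φ (c' y) + v = (φ (c r) + (y - r) • u) + v := by rw [h9]; abel
        exact add_right_cancel this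
      exact h10.symm
    exact (eventually_nhds_subtype_iff (Icc a b) r (fun y => c y = c' y)).2 e4
  have huniv : A = univ := IsClopen.eq_univ ⟨hclosed, hopen⟩ ⟨⟨s₀, hs₀⟩, h0⟩
  have : (⟨s, hs⟩ : Icc a b) ∈ A := by rw [huniv]; trivial
  exact this

end Pool.Agent.CRT.H10
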